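import Mathlib
import Pool.Agent.Helper65.EP.AllV

/-!
# Lebesgue density points of hyperbolicity on the boundary of the space of rational maps

The boundary points of the space of rational maps of degree `d` in the space of all pairs of
polynomials of degree at most `d` are the pairs `(H P, H Q)` with a common factor `H`; away from the
zeros of `H`, the holes, the rational maps near such a pair are close to the rational map
`φ = P / Q` of degree `e < d`. Let `H` be squarefree and let all critical points of `φ` and all holes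
be attracted, under `φ`, by attracting cycles or by nondegenerate parabolic cycles, such that these
cycles and the forward orbits avoid the holes. We prove that the pair `(H P, H Q)` is a point of
Lebesgue density of the set of the hyperbolic rational maps of degree `d`. For `e = 1` the map `φ` is
a Moebius transformation without critical points, for instance `z + 1`.

Idea of the proof: on almost every complex line through the pair the critical points of the
perturbed map near a hole `h` are at a distance at least of the order of `√|τ|` from it, so that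
their values tend to `φ (h)`. The parabolic cycles of `φ` split into simple cycles, one of them
attracting for all but countably many arguments of `τ`, and a Lyapunov function shows that the
orbits which arrive in the petals converge to it. This gives open certificates of hyperbolicity for
all small parameters of such an argument, and Fubini's theorem.
-/

set_option autoImplicit false

open Filter Topology MeasureTheory Polynomial

namespace Pool.Agent.Results.MP_8f2e1c_an.BoundaryDensityPoints

/-- The space of the coefficient vectors of pairs of polynomials of degree at most `d`: the complex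
numbers `x (0, j)` and `x (1, j)`, `0 ≤ j ≤ d`, are the coefficients of the first and of the second
polynomial. It carries the maximum norm and the Lebesgue measure. -/
abbrev Coefficients (d : ℕ) : Type := Fin 2 × Fin (d + 1) → ℂ

/-- The first (`i = 0`) and the second (`i = 1`) polynomial of the pair with coefficients `x`. -/
noncomputable def poly {d : ℕ} (x : Coefficients d) (i : Fin 2) : ℂ[X] :=
  ∑ j : Fin (d + 1), monomial (j : ℕ) (x (i, j))

/-- `f` is the self-map of the Riemann sphere given by the rational function `P / Q` of degree `d`,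
in lowest terms. -/
def IsRational (d : ℕ) (P Q : ℂ[X]) (f : OnePoint ℂ → OnePoint ℂ) : Prop :=
  IsCoprime P Q ∧ max P.natDegree Q.natDegree = d ∧ Continuous f ∧
    ∀ z : ℂ, Q.eval z ≠ 0 → f (z : OnePoint ℂ) = ((P.eval z / Q.eval z : ℂ) : OnePoint ℂ)

/-- The critical points of a rational map: it is not injective near them. -/
def IsCritical (f : OnePoint ℂ → OnePoint ℂ) (c : OnePoint ℂ) : Prop :=
  ¬ ∃ U ∈ 𝓝 c, Set.InjOn f U

/-- The orbit of every critical point of `f` converges to an attracting cycle (the condition of the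
frozen statement `S05373`). -/
def Hyperbolic (f : OnePoint ℂ → OnePoint ℂ) : Prop :=
  ∀ c : OnePoint ℂ, IsCritical f c → ∃ (z : OnePoint ℂ) (n : ℕ), 0 < n ∧ f^[n] z = z ∧
    (∃ U ∈ 𝓝 z, ∀ w ∈ U, Tendsto (fun k : ℕ => f^[n * k] w) atTop (𝓝 z)) ∧
    Tendsto (fun k : ℕ => f^[n * k] c) atTop (𝓝 z)

/-- The local coordinate at a point of the Riemann sphere: `w ↦ a + w` at a point `a` of the plane
and `w ↦ 1 / w` at infinity. -/
noncomputable def chart (a : OnePoint ℂ) (w : ℂ) : OnePoint ℂ :=
  match a with
  | none => open Classical in if w = 0 then OnePoint.infty else OnePoint.some w⁻¹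
  | some a => OnePoint.some (a + w)

/-- `a` is a fixed point of `f` of multiplier `ρ` with `|ρ| < 1`; `g` is the map `f` in the local
coordinate at `a`. -/
def IsAttractingFixed (f : OnePoint ℂ → OnePoint ℂ) (a : OnePoint ℂ) : Prop :=
  ∃ (g : ℂ → ℂ) (ρ : ℂ), ‖ρ‖ < 1 ∧ g 0 = 0 ∧ HasDerivAt g ρ 0 ∧
    ∀ᶠ w in 𝓝 (0 : ℂ), f (chart a w) = chart a (g w)

/-- `a` is a nondegenerate parabolic fixed point of `f`: the multiplier `ρ` is a primitive `q`-th
root of unity and `f^q` is `w + C w ^ (q + 1) + o (w ^ (q + 1))` with `C ≠ 0` in the local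
coordinate at `a`. -/
def IsNondegenerateParabolicFixed (q : ℕ) (f : OnePoint ℂ → OnePoint ℂ) (a : OnePoint ℂ) : Prop :=
  ∃ (g : ℂ → ℂ) (ρ C : ℂ), IsPrimitiveRoot ρ q ∧ C ≠ 0 ∧ g 0 = 0 ∧ HasDerivAt g ρ 0 ∧
    Tendsto (fun w => (g^[q] w - w) / w ^ (q + 1)) (𝓝[≠] 0) (𝓝 C) ∧
    ∀ᶠ w in 𝓝 (0 : ℂ), f (chart a w) = chart a (g w)

/-- The holes: the zeros of the common factor `H`. -/
def IsHole (H : ℂ[X]) (c : OnePoint ℂ) : Prop := ∃ z : ℂ, H.eval z = 0 ∧ c = (z : OnePoint ℂ)

/-- No point `a, f a, f (f a), …` is a hole. -/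
def AvoidsHoles (H : ℂ[X]) (f : OnePoint ℂ → OnePoint ℂ) (a : OnePoint ℂ) : Prop :=
  ∀ j : ℕ, ¬ IsHole H (f^[j] a)

/-- The orbit of `c` converges to an attracting cycle of `f` which avoids the holes. -/
def InAttractingBasin (H : ℂ[X]) (f : OnePoint ℂ → OnePoint ℂ) (c : OnePoint ℂ) : Prop :=
  ∃ (a : OnePoint ℂ) (n : ℕ), 0 < n ∧ IsAttractingFixed (f^[n]) a ∧ AvoidsHoles H f a ∧
    Tendsto (fun k : ℕ => f^[n * k] c) atTop (𝓝 a)

/-- The orbit of `c` converges to a nondegenerate parabolic cycle of `f` which avoids the holes, and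
does not land on it. -/
def InParabolicBasin (H : ℂ[X]) (f : OnePoint ℂ → OnePoint ℂ) (c : OnePoint ℂ) : Prop :=
  ∃ (a : OnePoint ℂ) (p q : ℕ), 0 < p ∧ 1 ≤ q ∧ IsNondegenerateParabolicFixed q (f^[p]) a ∧
    AvoidsHoles H f a ∧
    Tendsto (fun k : ℕ => f^[p * q * k] c) atTop (𝓝 a) ∧ ∀ k : ℕ, f^[p * q * k] c ≠ a

/-- The coefficient vectors in the ball of radius `r` around `x₀` which do not give a hyperbolic
rational map of degree `d`. -/
def Bad (d : ℕ) (x₀ : Coefficients d) (r : ℝ) : Set (Coefficients d) :=
  {x | ‖x - x₀‖ ≤ r ∧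
    ¬ ∃ f : OnePoint ℂ → OnePoint ℂ, IsRational d (poly x 0) (poly x 1) f ∧ Hyperbolic f}

/-- **Density of hyperbolicity at boundary points of the space of rational maps.** Let
`1 ≤ e < d`, let `φ = P / Q` be a rational map of degree `e` and let `H` be a squarefree polynomial
of degree `d - e`. Suppose that all critical points `c` of `φ` and all holes `c` are attracted by
attracting or nondegenerate parabolic cycles of `φ`, and that these cycles and the orbits
`φ (c), φ (φ (c)), …` avoid the holes. Let `x₀` be the coefficient vector of the pair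
`(H P, H Q)`. Then the part of the ball of radius `r` around `x₀` which does not consist of
hyperbolic rational maps of degree `d` has relative Lebesgue measure tending to zero as `r → 0`. -/
theorem result (d e : ℕ) (he : 1 ≤ e) (hed : e < d) (P Q H : ℂ[X])
    (φ : OnePoint ℂ → OnePoint ℂ) (hφ : IsRational e P Q φ) (hH : Squarefree H)
    (hHd : H.natDegree = d - e) (x₀ : Coefficients d) (h0 : poly x₀ 0 = H * P)
    (h1 : poly x₀ 1 = H * Q)
    (hcrit : ∀ c : OnePoint ℂ, IsCritical φ c ∨ IsHole H c →
      AvoidsHoles H φ (φ c) ∧ (InAttractingBasin H φ c ∨ InParabolicBasin H φ c)) :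
    Tendsto (fun r : ℝ => volume (Bad d x₀ r) / volume (Metric.closedBall x₀ r)) (𝓝[>] 0)
      (𝓝 0) := by
  obtain ⟨g1, g2, g3, g4⟩ := hφ
  obtain ⟨Gd, hGd, hlim⟩ := Pool.Agent.Helper65.EP.all_finalV he hed g1 g2 g3 g4 hH hHd
    (x0 := x₀) h0 h1 (by
      intro c hc
      obtain ⟨k1, k2⟩ := hcrit c hc
      refine ⟨fun j hj => ?_, ?_⟩
      · obtain ⟨i, rfl⟩ : ∃ i, j = i + 1 := ⟨j - 1, by omega⟩
        rw [Function.iterate_succ_apply]
        exact k1 i
      · rcases k2 with ⟨a, n, hn, h5, h8, h6⟩ | ⟨a, p, q, hp, hq, h5, h8, h6, h7⟩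
        · exact ⟨a, n, hn, h6, h8, Or.inl h5⟩
        · exact ⟨a, p * q, Nat.mul_pos hp (by omega), h6, h8, Or.inr ⟨⟨p, q, hp, hq, rfl, h5⟩, h7⟩⟩)
  have hd : 2 ≤ d := by omega
  refine tendsto_of_tendsto_of_tendsto_of_le_of_le tendsto_const_nhds hlim (fun _ => zero_le) ?_
  intro r
  refine ENNReal.div_le_div_right (measure_mono ?_) _
  rintro x ⟨h5, h6⟩
  refine ⟨mem_closedBall_iff_norm.2 h5, fun h7 => h6 ?_⟩
  obtain ⟨h8, h9⟩ := hGd x h7
  obtain ⟨k1, k2, -, -, k5⟩ := ((Pool.Agent.H790R3.RB.PQ Pool.Agent.H790R3.RB.SP) d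
    (by omega)).1 x h8
  exact ⟨Pool.Agent.H790R3.RB.sp x, ⟨k1, k2, (Pool.Agent.H790R3.RB.SP d x (by omega) h8).1, k5⟩,
    h9⟩

end Pool.Agent.Results.MP_8f2e1c_an.BoundaryDensityPoints
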