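import Mathlib
import Pool.Agent.Helper65.EV.Null

/-!
# Hyperbolic rational maps have density one at the degenerations to the identity

The rational maps of degree `d` form an open subset of the projective space of the pairs `(A, B)` of
polynomials of degree at most `d`. Its boundary contains the pairs `(z Q, Q)` with `Q` of degree at
most `d - 1`, the pairs which induce the identity map. We prove that every such pair (`Q ≠ 0`) is a
point of Lebesgue density of the set of the hyperbolic rational maps of degree `d`; more precisely
of the maps all of whose critical points converge to attracting fixed points.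

Idea of the proof: near `(z Q, Q)` the map is one step of Euler's method with a small step for a
rational vector field `R / Q` on the sphere. Near a pole of order `m` of the field there are
`2 m` critical points: `m + 1` of them start along the outgoing separatrices of the pole, the other
`m - 1` jump to a point `P₁ / Q₁` determined by the direction of the perturbation. For all but
countably many values of the argument of the (complex) step the field has no saddle connection, no
trajectory from a jump point to a pole and no closed trajectory, its trajectories are not recurrent,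
and all the zeros of `R` are sinks or sources. So the trajectories end in sinks, and the orbits of
the critical points follow them.
-/

set_option autoImplicit false

open Filter Topology MeasureTheory Polynomial

namespace Pool.Agent.Results.MP_8f2e1c_an.IdentityStratum

/-- The space of the coefficient vectors of pairs of polynomials of degree at most `d`: the complex
numbers `x (0, j)` and `x (1, j)`, `0 ≤ j ≤ d`, are the coefficients of the first and of the second
polynomial. It carries the maximum norm and the Lebesgue measure. -/
abbrev Coefficients (d : ℕ) : Type := Fin 2 × Fin (d + 1) → ℂ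

/-- The first (`i = 0`) and the second (`i = 1`) polynomial of the pair with coefficients `x`. -/
noncomputable def poly {d : ℕ} (x : Coefficients d) (i : Fin 2) : ℂ[X] :=
  ∑ j : Fin (d + 1), monomial (j : ℕ) (x (i, j))

/-- The coefficient vector of the pair `(z Q, Q)`. -/
noncomputable def identityPoint (d : ℕ) (Q : ℂ[X]) : Coefficients d :=
  fun ij => if ij.1 = 0 then (X * Q).coeff ij.2 else Q.coeff ij.2

/-- `f` is the self-map of the Riemann sphere given by the rational function `P / Q` of degree `d`,
in lowest terms. -/
def IsRational (d : ℕ) (P Q : ℂ[X]) (f : OnePoint ℂ → OnePoint ℂ) : Prop :=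
  IsCoprime P Q ∧ max P.natDegree Q.natDegree = d ∧ Continuous f ∧
    ∀ z : ℂ, Q.eval z ≠ 0 → f (z : OnePoint ℂ) = ((P.eval z / Q.eval z : ℂ) : OnePoint ℂ)

/-- The orbit of every critical point of `f` converges to an attracting fixed point of `f`. (This is
the condition of the frozen statement `S05373`, with cycles of period one.) -/
def HyperbolicFixed (f : OnePoint ℂ → OnePoint ℂ) : Prop :=
  ∀ c : OnePoint ℂ, (¬ ∃ U ∈ 𝓝 c, Set.InjOn f U) →
    ∃ z : OnePoint ℂ, f z = z ∧
      (∃ U ∈ 𝓝 z, ∀ w ∈ U, Tendsto (fun k : ℕ => f^[k] w) atTop (𝓝 z)) ∧
      Tendsto (fun k : ℕ => f^[k] c) atTop (𝓝 z)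

/-- The pairs in the ball of radius `r` around the pair `(z Q, Q)` which are not rational maps of
degree `d` all of whose critical points converge to attracting fixed points. -/
def Bad (d : ℕ) (Q : ℂ[X]) (r : ℝ) : Set (Coefficients d) :=
  {x | ‖x - identityPoint d Q‖ ≤ r ∧
    ¬ ∃ f : OnePoint ℂ → OnePoint ℂ, IsRational d (poly x 0) (poly x 1) f ∧ HyperbolicFixed f}

/-- **Density of hyperbolicity at the degenerations to the identity.** Let `d ≥ 2` and let `Q` be a
nonzero polynomial of degree at most `d - 1`. The part of the ball of radius `r` around the pair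
`(z Q, Q)` which does not consist of hyperbolic rational maps of degree `d` (with all critical
points attracted by fixed points) has relative Lebesgue measure tending to zero as `r → 0`. -/
theorem result (d : ℕ) (hd : 2 ≤ d) (Q : ℂ[X]) (hQ : Q ≠ 0) (hdeg : Q.natDegree + 1 ≤ d) :
    Tendsto (fun r : ℝ => volume (Bad d Q r) / volume (Metric.closedBall (identityPoint d Q) r))
      (𝓝[>] 0) (𝓝 0) := by
  obtain ⟨n, rfl⟩ : ∃ n, d = n + 1 := ⟨d - 1, by omega⟩
  have hn : Q.natDegree ≤ n := by omega
  have h1 : Pool.Agent.H790R3.RB.pol (identityPoint (n + 1) Q) 1 = Q := by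
    ext j
    by_cases hj : j < n + 1 + 1
    · have := Pool.Agent.H790R3.RB.PQ.pol_coeff (identityPoint (n + 1) Q) 1 ⟨j, hj⟩
      simp only at this
      rw [this]
      simp [identityPoint]
    · rw [Pool.Agent.H790R3.RB.PQ.pol_coeff_gt _ _ _ (by omega),
        coeff_eq_zero_of_natDegree_lt (by omega)]
  have h0 : Pool.Agent.H790R3.RB.pol (identityPoint (n + 1) Q) 0 = X * Q := by
    ext j
    by_cases hj : j < n + 1 + 1
    · have := Pool.Agent.H790R3.RB.PQ.pol_coeff (identityPoint (n + 1) Q) 0 ⟨j, hj⟩
      simp only at this
      rw [this]
      simp [identityPoint]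
    · rw [Pool.Agent.H790R3.RB.PQ.pol_coeff_gt _ _ _ (by omega), coeff_eq_zero_of_natDegree_lt]
      refine lt_of_le_of_lt natDegree_mul_le ?_
      rw [natDegree_X]
      omega
  have h2 := Pool.Agent.Helper65.EU.dens_of_ae hd (Pool.Agent.Helper65.EV.ae_dir (by omega)
    (x0 := identityPoint (n + 1) Q) (by rw [h1]; exact h0) (by rw [h1]; exact hn)
    (by rw [h1]; exact hQ))
  refine h2.congr fun r => ?_
  congr 2
  ext x
  rw [Bad, Set.mem_ofPred_eq, Set.mem_ofPred_eq, mem_closedBall_iff_norm]
  apply and_congr Iff.rfl
  apply not_congr
  constructor
  · rintro ⟨k1, k2, f, k3, k4, k5⟩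
    exact ⟨f, ⟨k1, k2, k3, k4⟩, k5⟩
  · rintro ⟨f, ⟨k1, k2, k3, k4⟩, k5⟩
    exact ⟨k1, k2, f, k3, k4, k5⟩

end Pool.Agent.Results.MP_8f2e1c_an.IdentityStratum
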