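import Mathlib
import Pool.Agent.Helper65.EP.All

/-!
# Nondegenerate parabolic rational maps are Lebesgue density points of hyperbolicity

Let `f` be a rational map of degree `d ≥ 2` all of whose critical points are attracted by attracting
cycles or by nondegenerate parabolic cycles (the multiplier is a primitive `q`-th root of unity and
there are exactly `q` petals at each point of the cycle; `q ≥ 1` is arbitrary). We prove that `f` is
a point of Lebesgue density of the set of the hyperbolic rational maps in the space of all rational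
maps of degree `d` (`2 d + 2` complex coefficients).

Idea of the proof: on almost every complex line through `f` the parabolic points split into simple
fixed points of the iterates (the resultant of `f^n (z) - z` and its derivative is a polynomial in
the coefficients which does not vanish identically). For all but countably many arguments of the
parameter on the line one of the new cycles is attracting and the others are repelling at a definite
rate, and a Lyapunov function (the cross ratio with the new fixed points, or its analogue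
`∏ (z - w_j) / (z - w_0)^q`) shows that all the orbits which arrive in the petals converge to the
attracting one. This gives open certificates of hyperbolicity for all small parameters of such an
argument, and Fubini's theorem.
-/

set_option autoImplicit false

open Filter Topology MeasureTheory Polynomial

namespace Pool.Agent.Results.MP_8f2e1c_an.ParabolicMaps

/-- The space of the coefficient vectors of pairs of polynomials of degree at most `d`: the complex
numbers `x (0, j)` and `x (1, j)`, `0 ≤ j ≤ d`, are the coefficients of the first and of the second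
polynomial. It carries the maximum norm and the Lebesgue measure. -/
abbrev Coefficients (d : ℕ) : Type := Fin 2 × Fin (d + 1) → ℂ

/-- The first (`i = 0`) and the second (`i = 1`) polynomial of the pair with coefficients `x`. -/
noncomputable def poly {d : ℕ} (x : Coefficients d) (i : Fin 2) : ℂ[X] :=
  ∑ j : Fin (d + 1), monomial (j : ℕ) (x (i, j))

/-- `f` is the self-map of the Riemann sphere given by the rational function `P / Q` of degree `d`,
in lowest terms. -/
def IsRational (d : ℕ) (P Q : ℂ[X]) (f : OnePoint ℂ → OnePoint ℂ) : Prop :=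
  IsCoprime P Q ∧ max P.natDegree Q.natDegree = d ∧ Continuous f ∧
    ∀ z : ℂ, Q.eval z ≠ 0 → f (z : OnePoint ℂ) = ((P.eval z / Q.eval z : ℂ) : OnePoint ℂ)

/-- The critical points of a rational map: it is not injective near them. -/
def IsCritical (f : OnePoint ℂ → OnePoint ℂ) (c : OnePoint ℂ) : Prop :=
  ¬ ∃ U ∈ 𝓝 c, Set.InjOn f U

/-- The orbit of every critical point of `f` converges to an attracting cycle (the condition of the
frozen statement `S05373`). -/
def Hyperbolic (f : OnePoint ℂ → OnePoint ℂ) : Prop :=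
  ∀ c : OnePoint ℂ, IsCritical f c → ∃ (z : OnePoint ℂ) (n : ℕ), 0 < n ∧ f^[n] z = z ∧
    (∃ U ∈ 𝓝 z, ∀ w ∈ U, Tendsto (fun k : ℕ => f^[n * k] w) atTop (𝓝 z)) ∧
    Tendsto (fun k : ℕ => f^[n * k] c) atTop (𝓝 z)

/-- The local coordinate at a point of the Riemann sphere: `w ↦ a + w` at a point `a` of the plane
and `w ↦ 1 / w` at infinity. -/
noncomputable def chart (a : OnePoint ℂ) (w : ℂ) : OnePoint ℂ :=
  match a with
  | none => open Classical in if w = 0 then OnePoint.infty else OnePoint.some w⁻¹
  | some a => OnePoint.some (a + w)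

/-- `a` is a fixed point of `f` of multiplier `ρ` with `|ρ| < 1`; `g` is the map `f` in the local
coordinate at `a`. -/
def IsAttractingFixed (f : OnePoint ℂ → OnePoint ℂ) (a : OnePoint ℂ) : Prop :=
  ∃ (g : ℂ → ℂ) (ρ : ℂ), ‖ρ‖ < 1 ∧ g 0 = 0 ∧ HasDerivAt g ρ 0 ∧
    ∀ᶠ w in 𝓝 (0 : ℂ), f (chart a w) = chart a (g w)

/-- `a` is a nondegenerate parabolic fixed point of `f`: the multiplier `ρ` is a primitive `q`-th
root of unity and `f^q` is `w + C w ^ (q + 1) + o (w ^ (q + 1))` with `C ≠ 0` in the local
coordinate at `a`. -/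
def IsNondegenerateParabolicFixed (q : ℕ) (f : OnePoint ℂ → OnePoint ℂ) (a : OnePoint ℂ) : Prop :=
  ∃ (g : ℂ → ℂ) (ρ C : ℂ), IsPrimitiveRoot ρ q ∧ C ≠ 0 ∧ g 0 = 0 ∧ HasDerivAt g ρ 0 ∧
    Tendsto (fun w => (g^[q] w - w) / w ^ (q + 1)) (𝓝[≠] 0) (𝓝 C) ∧
    ∀ᶠ w in 𝓝 (0 : ℂ), f (chart a w) = chart a (g w)

/-- The orbit of `c` converges to an attracting cycle of `f`. -/
def InAttractingBasin (f : OnePoint ℂ → OnePoint ℂ) (c : OnePoint ℂ) : Prop :=
  ∃ (a : OnePoint ℂ) (n : ℕ), 0 < n ∧ IsAttractingFixed (f^[n]) a ∧
    Tendsto (fun k : ℕ => f^[n * k] c) atTop (𝓝 a)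

/-- The orbit of `c` converges to a nondegenerate parabolic cycle of `f` and does not land on it. -/
def InParabolicBasin (f : OnePoint ℂ → OnePoint ℂ) (c : OnePoint ℂ) : Prop :=
  ∃ (a : OnePoint ℂ) (p q : ℕ), 0 < p ∧ 1 ≤ q ∧ IsNondegenerateParabolicFixed q (f^[p]) a ∧
    Tendsto (fun k : ℕ => f^[p * q * k] c) atTop (𝓝 a) ∧ ∀ k : ℕ, f^[p * q * k] c ≠ a

/-- The coefficient vectors in the ball of radius `r` around `x₀` which do not give a hyperbolic
rational map of degree `d`. -/
def Bad (d : ℕ) (x₀ : Coefficients d) (r : ℝ) : Set (Coefficients d) :=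
  {x | ‖x - x₀‖ ≤ r ∧
    ¬ ∃ f : OnePoint ℂ → OnePoint ℂ, IsRational d (poly x 0) (poly x 1) f ∧ Hyperbolic f}

/-- **Density of hyperbolicity at the nondegenerate parabolic maps.** Let `d ≥ 2` and let `f` be a
rational map of degree `d`, with coefficient vector `x₀`, such that every critical point of `f` is
attracted by an attracting cycle or by a nondegenerate parabolic cycle. Then the part of the ball of
radius `r` around `x₀` which does not consist of hyperbolic rational maps of degree `d` has relative
Lebesgue measure tending to zero as `r → 0`. -/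
theorem result (d : ℕ) (hd : 2 ≤ d) (x₀ : Coefficients d) (f : OnePoint ℂ → OnePoint ℂ)
    (hf : IsRational d (poly x₀ 0) (poly x₀ 1) f)
    (hcrit : ∀ c : OnePoint ℂ, IsCritical f c → InAttractingBasin f c ∨ InParabolicBasin f c) :
    Tendsto (fun r : ℝ => volume (Bad d x₀ r) / volume (Metric.closedBall x₀ r)) (𝓝[>] 0)
      (𝓝 0) := by
  obtain ⟨h1, h2, h3, h4⟩ := hf
  obtain ⟨hND, rfl⟩ := Pool.Agent.Helper65.EP.t_uniq d x₀ f (by omega) h1 h2 h3 h4
  obtain ⟨Gd, hGd, hlim⟩ := Pool.Agent.Helper65.EP.all_final hd hND (by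
    intro c hc
    rcases hcrit c hc with ⟨a, n, hn, h5, h6⟩ | ⟨a, p, q, hp, hq, h5, h6, h7⟩
    · exact ⟨a, n, hn, h6, Or.inl h5⟩
    · exact ⟨a, p * q, Nat.mul_pos hp (by omega), h6, Or.inr ⟨⟨p, q, hp, hq, rfl, h5⟩, h7⟩⟩)
  refine tendsto_of_tendsto_of_tendsto_of_le_of_le tendsto_const_nhds hlim (fun _ => zero_le) ?_
  intro r
  refine ENNReal.div_le_div_right (measure_mono ?_) _
  rintro x ⟨h5, h6⟩
  refine ⟨mem_closedBall_iff_norm.2 h5, fun h7 => h6 ?_⟩
  obtain ⟨h8, h9⟩ := hGd x h7
  obtain ⟨k1, k2, -, -, k5⟩ := ((Pool.Agent.H790R3.RB.PQ Pool.Agent.H790R3.RB.SP) d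
    (by omega)).1 x h8
  exact ⟨Pool.Agent.H790R3.RB.sp x, ⟨k1, k2, (Pool.Agent.H790R3.RB.SP d x (by omega) h8).1, k5⟩,
    h9⟩

end Pool.Agent.Results.MP_8f2e1c_an.ParabolicMaps
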