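import Mathlib
import Pool.Agent.Helper65.EX.Sub

/-!
# Almost all rational maps with prescribed fixed points are hyperbolic, asymptotically

Let `ζ 0, ..., ζ d` be distinct points of the plane, `N = ∏ i, (z - ζ i)`, and let `B` be a monic
polynomial of degree `d`. The rational maps of degree `d` which fix the points `ζ i` are of the form
`z - N / (B + T)` with exactly one polynomial `T` of degree at most `d - 1`. (The number
`(B + T) (ζ i) / N' (ζ i)` is the holomorphic index `1 / (1 - f' (ζ i))` of the fixed point `ζ i`.)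
Let `T` vary in a linear system of such polynomials which contains the constants and a polynomial of
degree `d - 1`, for example all of them, or the span of `1` and `z ^ (d - 1)`. We prove that the
maps all of whose critical points converge to attracting fixed points have asymptotic density one in
this family: their proportion in the ball of radius `R` tends to one as `R` tends to infinity, for
every choice of the fixed points.
-/

set_option autoImplicit false

open Filter Topology MeasureTheory Polynomial

namespace Pool.Agent.Results.MP_8f2e1c_an.PrescribedFixedPoints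

/-- `f` is the self-map of the Riemann sphere given by the rational function `P / Q` of degree `d`,
in lowest terms. -/
def IsRational (d : ℕ) (P Q : ℂ[X]) (f : OnePoint ℂ → OnePoint ℂ) : Prop :=
  IsCoprime P Q ∧ max P.natDegree Q.natDegree = d ∧ Continuous f ∧
    ∀ z : ℂ, Q.eval z ≠ 0 → f (z : OnePoint ℂ) = ((P.eval z / Q.eval z : ℂ) : OnePoint ℂ)

/-- The orbit of every critical point of `f` converges to an attracting fixed point of `f`. (This is
the condition of the frozen statement `S05373`, with cycles of period one.) -/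
def HyperbolicFixed (f : OnePoint ℂ → OnePoint ℂ) : Prop :=
  ∀ c : OnePoint ℂ, (¬ ∃ U ∈ 𝓝 c, Set.InjOn f U) →
    ∃ z : OnePoint ℂ, f z = z ∧
      (∃ U ∈ 𝓝 z, ∀ w ∈ U, Tendsto (fun k : ℕ => f^[k] w) atTop (𝓝 z)) ∧
      Tendsto (fun k : ℕ => f^[k] c) atTop (𝓝 z)

/-- The polynomial `∏ i, (X - ζ i)`. -/
noncomputable def nodes {m : ℕ} (ζ : Fin m → ℂ) : ℂ[X] := ∏ i, (X - C (ζ i))

/-- The numerator of `z - nodes ζ / D`. -/
noncomputable def numerator {m : ℕ} (ζ : Fin m → ℂ) (D : ℂ[X]) : ℂ[X] := X * D - nodes ζ

/-- The denominator `B + ∑ j, ρ j * M j`. -/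
noncomputable def denominator {m : ℕ} (B : ℂ[X]) (M : Fin m → ℂ[X]) (ρ : Fin m → ℂ) : ℂ[X] :=
  B + ∑ j, C (ρ j) * M j

/-- The vectors `ρ` in the ball of radius `R` for which `z - nodes ζ / (B + ∑ j, ρ j * M j)` is not
a rational map of degree `d` all of whose critical points converge to attracting fixed points. -/
def Bad (d : ℕ) (ζ : Fin (d + 1) → ℂ) (B : ℂ[X]) {m : ℕ} (M : Fin m → ℂ[X]) (R : ℝ) :
    Set (Fin m → ℂ) :=
  {ρ | ‖ρ‖ ≤ R ∧ ¬ ∃ f : OnePoint ℂ → OnePoint ℂ,
    IsRational d (numerator ζ (denominator B M ρ)) (denominator B M ρ) f ∧ HyperbolicFixed f}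

/-- **Density of hyperbolicity in linear systems of rational maps with prescribed fixed points.**
Let `d ≥ 2`, let `ζ 0, ..., ζ d` be distinct points of the plane, `N = ∏ i, (z - ζ i)`, `B` a monic
polynomial of degree `d` and `M 0, M 1, ...` finitely many polynomials of degree at most `d - 1`
whose linear span contains `1` and a polynomial of degree `d - 1`.

The relative Lebesgue measure, in the ball of radius `R`, of the vectors `ρ` for which
`z - N / (B + ∑ j, ρ j * M j)` is not hyperbolic (a rational map of degree `d` with all critical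
points attracted by attracting fixed points) tends to zero as `R` tends to infinity.

Every rational map of degree `d` which fixes the points `ζ i` is of the form `z - N / (B + T)` with
exactly one polynomial `T` of degree at most `d - 1`. -/
theorem result (d : ℕ) (hd : 2 ≤ d) (ζ : Fin (d + 1) → ℂ) (hζ : Function.Injective ζ)
    (B : ℂ[X]) (hB : B.Monic) (hBd : B.natDegree = d)
    {m : ℕ} (M : Fin m → ℂ[X]) (hM : ∀ j, (M j).natDegree < d)
    (h1 : (1 : ℂ[X]) ∈ Submodule.span ℂ (Set.range M))
    (h2 : ∃ T ∈ Submodule.span ℂ (Set.range M), T.natDegree = d - 1) :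
    Tendsto (fun R : ℝ => volume (Bad d ζ B M R) / volume (Metric.closedBall (0 : Fin m → ℂ) R))
      atTop (𝓝 0) ∧
    ∀ (P Q : ℂ[X]) (f : OnePoint ℂ → OnePoint ℂ), IsRational d P Q f →
      (∀ i, f (ζ i : OnePoint ℂ) = (ζ i : OnePoint ℂ)) →
      ∃! T : ℂ[X], T.natDegree < d ∧ IsRational d (numerator ζ (B + T)) (B + T) f := by
  obtain ⟨n, rfl⟩ : ∃ n, d = n + 1 := ⟨d - 1, by omega⟩
  have hn : 1 ≤ n := by omega
  refine And.symm ⟨?_, ?_⟩
  · rintro P Q f ⟨k1, k2, k3, k4⟩ hfix
    exact Pool.Agent.Helper65.EX.sub_param hζ hn hB hBd k1 k2 k3 k4 hfix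
  · have h := Pool.Agent.Helper65.EX.dens_sub hζ hn (Pool.Agent.Helper65.EU.HypPair (n + 1))
      (fun y hy => Pool.Agent.Helper65.EU.Gset_hyp (by omega) hy)
      (fun _ _ _ hc h => Pool.Agent.Helper65.EX.hyp_scale hc h) hB hBd M hM h1 h2
    refine tendsto_of_tendsto_of_tendsto_of_le_of_le tendsto_const_nhds h ?_ ?_
    · intro R
      exact zero_le
    · intro R
      apply ENNReal.div_le_div_right
      apply measure_mono
      rintro s ⟨k1, k2⟩
      refine ⟨mem_closedBall_zero_iff.2 k1, fun hN => k2 ?_⟩
      obtain ⟨j1, j2, f, j3, j4, j5⟩ := hN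
      exact ⟨f, ⟨j1, j2, j3, j4⟩, j5⟩

end Pool.Agent.Results.MP_8f2e1c_an.PrescribedFixedPoints
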